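import Pool.Agent.WR2.StmtsB

/-!
WR2, row LG2: elementary bounds for Nat.log 2 (3^l).
-/

namespace Pool.Agent.WR2.H44

open Pool.Agent.WIR

private lemma lo (l : ℕ) : 2 ^ Nat.log 2 (3 ^ l) ≤ 3 ^ l :=
  Nat.pow_log_le_self 2 (by positivity)

private lemma hi (l : ℕ) : 3 ^ l < 2 ^ (Nat.log 2 (3 ^ l) + 1) :=
  Nat.lt_pow_succ_log_self (by norm_num) _

private lemma le_of_two_pow {a b : ℕ} (h : 2 ^ a ≤ 2 ^ b) : a ≤ b :=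
  (Nat.pow_le_pow_iff_right (by norm_num)).mp h

private lemma up (p q l : ℕ) (h : 3 ^ p ≤ 2 ^ q) : p * Nat.log 2 (3 ^ l) ≤ q * l := by
  have h1 : 2 ^ (p * Nat.log 2 (3 ^ l)) ≤ 2 ^ (q * l) := by
    calc 2 ^ (p * Nat.log 2 (3 ^ l)) = (2 ^ Nat.log 2 (3 ^ l)) ^ p := by
          rw [← pow_mul, mul_comm]
      _ ≤ (3 ^ l) ^ p := Nat.pow_le_pow_left (lo l) p
      _ = (3 ^ p) ^ l := by rw [← pow_mul, ← pow_mul, mul_comm]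
      _ ≤ (2 ^ q) ^ l := Nat.pow_le_pow_left h l
      _ = 2 ^ (q * l) := by rw [← pow_mul]
  exact le_of_two_pow h1

private lemma dn (p q l : ℕ) (h : 2 ^ q ≤ 3 ^ p) : q * l ≤ p * (Nat.log 2 (3 ^ l) + 1) := by
  have h1 : 2 ^ (q * l) ≤ 2 ^ (p * (Nat.log 2 (3 ^ l) + 1)) := by
    calc 2 ^ (q * l) = (2 ^ q) ^ l := by rw [← pow_mul]
      _ ≤ (3 ^ p) ^ l := Nat.pow_le_pow_left h l
      _ = (3 ^ l) ^ p := by rw [← pow_mul, ← pow_mul, mul_comm]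
      _ ≤ (2 ^ (Nat.log 2 (3 ^ l) + 1)) ^ p := Nat.pow_le_pow_left (hi l).le p
      _ = 2 ^ (p * (Nat.log 2 (3 ^ l) + 1)) := by rw [← pow_mul, mul_comm]
  exact le_of_two_pow h1

theorem lg2 : Lg2Stmt := by
  refine ⟨fun l => ⟨up 17 27 l (by norm_num), dn 12 19 l (by norm_num), up 5 8 l (by norm_num),
    dn 50 79 l (by norm_num)⟩, fun a b => ⟨?_, ?_⟩⟩
  · have h1 : 2 ^ (Nat.log 2 (3 ^ a) + Nat.log 2 (3 ^ b)) < 2 ^ (Nat.log 2 (3 ^ (a + b)) + 1) := by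
      calc 2 ^ (Nat.log 2 (3 ^ a) + Nat.log 2 (3 ^ b))
          = 2 ^ Nat.log 2 (3 ^ a) * 2 ^ Nat.log 2 (3 ^ b) := by rw [pow_add]
        _ ≤ 3 ^ a * 3 ^ b := Nat.mul_le_mul (lo a) (lo b)
        _ = 3 ^ (a + b) := by rw [pow_add]
        _ < 2 ^ (Nat.log 2 (3 ^ (a + b)) + 1) := hi (a + b)
    have h2 := (Nat.pow_lt_pow_iff_right (by norm_num : 1 < 2)).mp h1
    omega
  · have h1 : 2 ^ Nat.log 2 (3 ^ (a + b)) <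
        2 ^ ((Nat.log 2 (3 ^ a) + 1) + (Nat.log 2 (3 ^ b) + 1)) := by
      calc 2 ^ Nat.log 2 (3 ^ (a + b)) ≤ 3 ^ (a + b) := lo (a + b)
        _ = 3 ^ a * 3 ^ b := by rw [pow_add]
        _ < 2 ^ (Nat.log 2 (3 ^ a) + 1) * 2 ^ (Nat.log 2 (3 ^ b) + 1) :=
            Nat.mul_lt_mul'' (hi a) (hi b)
        _ = 2 ^ ((Nat.log 2 (3 ^ a) + 1) + (Nat.log 2 (3 ^ b) + 1)) := by rw [← pow_add]
    have h2 := (Nat.pow_lt_pow_iff_right (by norm_num : 1 < 2)).mp h1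
    omega

end Pool.Agent.WR2.H44
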