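import Pool.Agent.WR2.StmtsC

/-!
WR2, row MKV: the Markov inequality for an increasing sequence.
-/

namespace Pool.Agent.WR2.H44

open Pool.Agent.WIR
open scoped BigOperators

open Classical in
theorem mkv : MkvStmt := by
  intro S F c B hc hF hmono hB
  set T := S.filter (fun a => ∃ J, c ≤ F J a) with hT
  have hex : ∀ a, ∃ J, a ∈ T → c ≤ F J a := by
    intro a
    by_cases ha : a ∈ T
    · have h2 := (Finset.mem_filter.mp ha).2
      obtain ⟨J, hJ⟩ := h2
      exact ⟨J, fun _ => hJ⟩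
    · exact ⟨0, fun h => absurd h ha⟩
  choose j hj using hex
  have hle : ∀ a ∈ T, c ≤ F (T.sup j) a := fun a ha =>
    le_trans (hj a ha) (hmono a (j a) (T.sup j) (Finset.le_sup ha))
  calc c * (T.card : ℝ) = ∑ _a ∈ T, c := by rw [Finset.sum_const, nsmul_eq_mul, mul_comm]
    _ ≤ ∑ a ∈ T, F (T.sup j) a := Finset.sum_le_sum hle
    _ ≤ ∑ a ∈ S, F (T.sup j) a :=
        Finset.sum_le_sum_of_subset_of_nonneg (Finset.filter_subset _ _) (fun a _ _ => hF _ a)
    _ ≤ B := hB _

end Pool.Agent.WR2.H44
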